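import Pool.Agent.helper43.DHB.SpecB

set_option autoImplicit false

open Filter Topology MeasureTheory
open scoped commutatorElement

namespace Pool.Agent.helper90.DH

open Pool.Agent.helper64.D2

theorem bSL2_dg1 {q L N : ℕ} (w : Fin q × Fin L → Fin N) (i : ℕ) (hi : i < q) (l0 : ℕ) (hl : l0 < L) (c : Fin N) :
    dg (Function.update w (⟨i, hi⟩, ⟨l0, hl⟩) c) i = Function.update (dg w i) l0 (c : ℕ) := by
  funext l
  by_cases h : l = l0
  · subst h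
    simp [dg, hi, hl]
  · rw [Function.update_of_ne h]
    unfold dg
    by_cases h2 : l < L
    · simp only [hi, h2, and_self, dite_true]
      rw [Function.update_of_ne]
      intro h3
      apply h
      have h4 := congrArg Prod.snd h3
      exact congrArg Fin.val h4
    · simp [h2]

theorem bSL2_dg2 {q L N : ℕ} (w : Fin q × Fin L → Fin N) (i i' : ℕ) (hi : i < q) (l0 : ℕ) (hl : l0 < L) (c : Fin N) (hne : i ≠ i') :
    dg (Function.update w (⟨i, hi⟩, ⟨l0, hl⟩) c) i' = dg w i' := by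
  funext l
  unfold dg
  by_cases h2 : i' < q ∧ l < L
  · simp only [h2, and_self, dite_true]
    rw [Function.update_of_ne]
    intro h3
    apply hne
    have h4 := congrArg Prod.fst h3
    exact (congrArg Fin.val h4).symm
  · simp [h2]

theorem bSL2_dgN {q L N : ℕ} (w : Fin q × Fin L → Fin N) (i l : ℕ) : dg w i l ≤ N := by
  unfold dg
  split_ifs with h
  · exact (w _).2.le
  · exact Nat.zero_le _

theorem bSL2 (hSL1 : bSL1_stmt) (hPRD : bPRD_stmt) (hPRB : bPRB_stmt) (hWDF : bWDF_stmt) : bSL2_stmt := by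
  classical
  intro β hβ q u N s σ m0 P Em τ τ1 y hP hτ1 hτ hu hσ hN hy
  obtain ⟨Kb, -, hW⟩ := hWDF β hβ
  obtain ⟨hmono, hnn, -, huni, -, -, -⟩ := hPRB
  haveI : Nonempty (Fin N) := ⟨⟨0, hN⟩⟩
  have h2u : (0 : ℝ) < 2 ^ u := by positivity
  obtain ⟨l0, hl0, hl0L⟩ : ∃ l0 : ℕ, (l0 : ℤ) = ci u y ∧ l0 < 2 ^ u := by
    have hy0 : 0 ≤ y := by linarith [hy.1]
    have h0 : 0 ≤ ci u y := Int.floor_nonneg.2 (by positivity)
    have h1 : ci u y < ((2 ^ u : ℕ) : ℤ) := by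
      unfold ci
      rw [Int.floor_lt]
      push_cast
      nlinarith [hy.2]
    refine ⟨(ci u y).toNat, Int.toNat_of_nonneg h0, ?_⟩
    have h2 := Int.toNat_of_nonneg h0
    have h3 : ((ci u y).toNat : ℤ) < ((2 ^ u : ℕ) : ℤ) := by rw [h2]; exact h1
    exact_mod_cast h3
  have hNr : (0 : ℝ) < N := by exact_mod_cast hN
  obtain ⟨p, hp⟩ : ∃ p : ℝ, p = 3 * (12 / (2 ^ σ * τ1) + 1 / N) := ⟨_, rfl⟩
  have hp0 : 0 ≤ p := by rw [hp]; positivity
  obtain ⟨A, hA⟩ : ∃ A : ℕ → Set (Fin q × Fin (2 ^ u) → Fin N), A = fun i =>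
    {w | ∃ k : ℤ, |P i (Em i y + Wd β u N (τ i) (dg w i) y) - (k : ℝ) / 2 ^ s| ≤ 3 / 2 ^ σ} := ⟨_, rfl⟩
  have key : ∀ S ∈ (Finset.range q).powersetCard (m0 + 1), bpr {w : Fin q × Fin (2 ^ u) → Fin N | ∀ i ∈ S, w ∈ A i} ≤ p ^ (m0 + 1) := by
    intro S hS
    obtain ⟨hSq, hSc⟩ := Finset.mem_powersetCard.1 hS
    have hlt : ∀ t : {i // i ∈ S}, (t : ℕ) < q := fun t => Finset.mem_range.1 (hSq t.2)
    have h1 := hPRD (Fin q × Fin (2 ^ u)) (Fin N) {i // i ∈ S} (fun t => A t) (fun t => (⟨t, hlt t⟩, ⟨l0, hl0L⟩)) p hp0 ?_ ?_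
    · rw [Fintype.card_coe, hSc] at h1
      refine le_trans (le_of_eq ?_) h1
      congr 1
      ext w
      simp only [Set.mem_iInter, Subtype.forall]
      rfl
    · intro t t' htt w c
      have hne : (t : ℕ) ≠ (t' : ℕ) := fun h => htt (Subtype.ext h)
      rw [hA]
      show (∃ k : ℤ, |P t' (Em t' y + Wd β u N (τ t') (dg w t') y) - (k : ℝ) / 2 ^ s| ≤ 3 / 2 ^ σ) ↔
        (∃ k : ℤ, |P t' (Em t' y + Wd β u N (τ t') (dg (Function.update w (⟨t, hlt t⟩, ⟨l0, hl0L⟩) c) t') y) - (k : ℝ) / 2 ^ s| ≤ 3 / 2 ^ σ)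
      rw [bSL2_dg2 w t t' (hlt t) l0 hl0L c hne]
    · intro t w
      have hτt := hτ t
      have hτpos : 0 < τ t := lt_of_lt_of_le hτ1 hτt.1
      obtain ⟨-, -, -, -, hlast⟩ := hW u N (τ t) (dg w t) hu hN hτpos.le (fun l => bSL2_dgN w t l)
      have h2 := hSL1 (P t) (Em t y + Wd β u N (τ t) (Function.update (dg w t) l0 0) y) (τ t) N s σ (hP t) hτpos hτt.2 hσ hN
      refine le_trans (hmono _ _ _ ?_) (h2.trans ?_)
      · intro c hc
        rw [hA] at hc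
        have hc' : ∃ k : ℤ, |P t (Em t y + Wd β u N (τ t) (dg (Function.update w (⟨t, hlt t⟩, ⟨l0, hl0L⟩) c) t) y) - (k : ℝ) / 2 ^ s| ≤ 3 / 2 ^ σ := hc
        obtain ⟨k, hk⟩ := hc'
        refine ⟨k, ?_⟩
        rw [bSL2_dg1 w t (hlt t) l0 hl0L c, hlast y hy l0 hl0 c, ← add_assoc] at hk
        exact hk
      · rw [hp]
        have h3 : 12 / (2 ^ σ * τ t) ≤ 12 / (2 ^ σ * τ1) := by
          gcongr
          exact hτt.1
        linarith
  have hsub : {w : Fin q × Fin (2 ^ u) → Fin N | m0 < (nearf q (CMf β u N τ P Em (dg w)) s (3 / 2 ^ σ) y).card} ⊆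
      ⋃ S ∈ (Finset.range q).powersetCard (m0 + 1), {w : Fin q × Fin (2 ^ u) → Fin N | ∀ i ∈ S, w ∈ A i} := by
    intro w hw
    obtain ⟨S, hS, hcard⟩ := Finset.exists_subset_card_eq (Nat.succ_le_of_lt hw)
    simp only [Set.mem_iUnion, exists_prop]
    refine ⟨S, Finset.mem_powersetCard.2 ⟨hS.trans (Finset.filter_subset _ _), hcard⟩, ?_⟩
    intro i hi
    have h1 := (Finset.mem_filter.1 (hS hi)).2
    rw [hA]
    exact h1
  calc bpr {w : Fin q × Fin (2 ^ u) → Fin N | m0 < (nearf q (CMf β u N τ P Em (dg w)) s (3 / 2 ^ σ) y).card}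
      ≤ bpr (⋃ S ∈ (Finset.range q).powersetCard (m0 + 1), {w : Fin q × Fin (2 ^ u) → Fin N | ∀ i ∈ S, w ∈ A i}) := hmono _ _ _ hsub
    _ ≤ ∑ S ∈ (Finset.range q).powersetCard (m0 + 1), bpr {w : Fin q × Fin (2 ^ u) → Fin N | ∀ i ∈ S, w ∈ A i} := huni _ _ _ _
    _ ≤ ∑ S ∈ (Finset.range q).powersetCard (m0 + 1), p ^ (m0 + 1) := Finset.sum_le_sum key
    _ = (q.choose (m0 + 1) : ℝ) * p ^ (m0 + 1) := by
        rw [Finset.sum_const, Finset.card_powersetCard, Finset.card_range, nsmul_eq_mul]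
    _ ≤ (q : ℝ) ^ (m0 + 1) * p ^ (m0 + 1) := by
        have h1 : (q.choose (m0 + 1) : ℝ) ≤ (q : ℝ) ^ (m0 + 1) := by exact_mod_cast Nat.choose_le_pow q (m0 + 1)
        exact mul_le_mul_of_nonneg_right h1 (pow_nonneg hp0 _)
    _ = (q * (3 * (12 / (2 ^ σ * τ1) + 1 / N))) ^ (m0 + 1) := by rw [← hp, mul_pow]

end Pool.Agent.helper90.DH
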